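import Mathlib

/-!
# The Selberg upper bound sieve

We complete the development in `Mathlib.NumberTheory.SelbergSieve`: for a `BoundingSieve` `s` and a
level `y ≥ 1`,
`siftedSum ≤ totalMass / G + ∑_{d ∣ P, d ≤ y} 3 ^ ω(d) * |rem d|`,
where `G = ∑_{l ∣ P, l² ≤ y} g(l)` and `g = selbergTerms`.
-/

namespace Pool.Agent.Lib.Sieve

open Finset Nat ArithmeticFunction BoundingSieve
open scoped ArithmeticFunction.Moebius ArithmeticFunction.omega

noncomputable section

variable (s : BoundingSieve) (y : ℝ)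

/-- The bounding sum `G = ∑_{l ∣ P, l² ≤ y} g(l)`. -/
def boundingG : ℝ := ∑ l ∈ divisors s.prodPrimes,
  if (l : ℝ) ^ 2 ≤ y then selbergTerms (s := s) l else 0

/-- Selberg's weights. -/
def selbergW (d : ℕ) : ℝ :=
  if d ∣ s.prodPrimes then
    (s.nu d)⁻¹ * selbergTerms (s := s) d * (μ d : ℝ) * (boundingG s y)⁻¹ *
      ∑ m ∈ divisors s.prodPrimes,
        if ((d * m : ℕ) : ℝ) ^ 2 ≤ y ∧ m.Coprime d then selbergTerms (s := s) m else 0
  else 0

variable {s y}

lemma P_ne_zero : s.prodPrimes ≠ 0 := s.prodPrimes_squarefree.ne_zero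

lemma selbergTerms_one : selbergTerms (s := s) 1 = 1 :=
  (selbergTerms_isMultiplicative (s := s)).map_one

lemma boundingG_pos (hy : 1 ≤ y) : 0 < boundingG s y := by
  unfold boundingG
  have h1 : (1 : ℕ) ∈ divisors s.prodPrimes := by
    rw [Nat.mem_divisors]; exact ⟨one_dvd _, P_ne_zero⟩
  have : (0:ℝ) < if ((1 : ℕ) : ℝ) ^ 2 ≤ y then selbergTerms (s := s) 1 else 0 := by
    rw [if_pos (by simpa using hy), selbergTerms_one]; norm_num
  refine lt_of_lt_of_le this ?_
  refine Finset.single_le_sum (f := fun l : ℕ => if (l : ℝ) ^ 2 ≤ y then selbergTerms (s := s) l else 0)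
    ?_ h1
  intro i hi
  split_ifs
  · exact (selbergTerms_pos (Nat.mem_divisors.mp hi).1).le
  · exact le_rfl

lemma selbergW_one (hy : 1 ≤ y) : selbergW s y 1 = 1 := by
  have hG := boundingG_pos (s := s) hy
  unfold selbergW
  rw [if_pos (one_dvd _), s.nu_mult.map_one, selbergTerms_one]
  have : (∑ m ∈ divisors s.prodPrimes,
        if ((1 * m : ℕ) : ℝ) ^ 2 ≤ y ∧ m.Coprime 1 then selbergTerms (s := s) m else 0)
        = boundingG s y := by
    unfold boundingG
    refine Finset.sum_congr rfl fun m _ => ?_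
    simp
  rw [this]
  simp [hG.ne']

/-- `∑_{l ∣ d ∣ k} μ d = [l = k] μ l`. -/
lemma sum_moebius_between (l k : ℕ) (hk : Squarefree k) :
    (∑ d ∈ k.divisors, if l ∣ d then (μ d : ℝ) else 0) = if l = k then (μ l : ℝ) else 0 := by
  by_cases hlk : l ∣ k
  · obtain ⟨e, rfl⟩ := hlk
    have hne : l * e ≠ 0 := hk.ne_zero
    have hl0 : l ≠ 0 := left_ne_zero_of_mul hne
    have he0 : e ≠ 0 := right_ne_zero_of_mul hne
    rw [← Finset.sum_filter]
    have h1 : (l * e).divisors.filter (fun d => l ∣ d) = e.divisors.image (fun x => l * x) := by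
      ext d
      simp only [mem_filter, Nat.mem_divisors, mem_image]
      constructor
      · rintro ⟨⟨h1, _⟩, ⟨c, rfl⟩⟩
        exact ⟨c, ⟨Nat.dvd_of_mul_dvd_mul_left (Nat.pos_of_ne_zero hl0) h1, he0⟩, rfl⟩
      · rintro ⟨c, ⟨h1, _⟩, rfl⟩
        exact ⟨⟨Nat.mul_dvd_mul_left l h1, hne⟩, Dvd.intro _ rfl⟩
    rw [h1, Finset.sum_image (by
      intro a _ b _ h
      exact Nat.eq_of_mul_eq_mul_left (Nat.pos_of_ne_zero hl0) h)]
    have hcop : l.Coprime e := Nat.coprime_of_squarefree_mul hk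
    have h2 : ∀ x ∈ e.divisors, ((μ (l * x) : ℤ) : ℝ) = (μ l : ℝ) * (μ x : ℝ) := by
      intro x hx
      have hx' := (Nat.mem_divisors.mp hx).1
      rw [isMultiplicative_moebius.map_mul_of_coprime (hcop.coprime_dvd_right hx')]
      push_cast; rfl
    rw [Finset.sum_congr rfl h2, ← Finset.mul_sum]
    have h3 : (∑ x ∈ e.divisors, (μ x : ℝ)) = if e = 1 then 1 else 0 := by
      have h4 : (∑ x ∈ e.divisors, μ x) = if e = 1 then 1 else 0 := by
        rw [← coe_mul_zeta_apply, moebius_mul_coe_zeta, one_apply]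
      have := congrArg (fun z : ℤ => (z : ℝ)) h4
      push_cast at this
      rw [this]
    rw [h3]
    by_cases he : e = 1
    · subst he; simp
    · have : l ≠ l * e := by
        intro h
        apply he
        have : l * 1 = l * e := by rw [mul_one]; exact h
        exact (Nat.eq_of_mul_eq_mul_left (Nat.pos_of_ne_zero hl0) this).symm
      simp [he, this]
  · have h1 : ∀ d ∈ k.divisors, (if l ∣ d then (μ d : ℝ) else 0) = 0 := by
      intro d hd
      rw [if_neg]
      intro h
      exact hlk (h.trans (Nat.mem_divisors.mp hd).1)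
    rw [Finset.sum_eq_zero h1, if_neg]
    rintro rfl
    exact hlk dvd_rfl

/-- For `d ∣ P`: `ν(d) W(d) = G⁻¹ μ(d) ∑_{k ∣ P, d ∣ k, k² ≤ y} g(k)`. -/
lemma nu_mul_selbergW {d : ℕ} (hd : d ∣ s.prodPrimes) :
    s.nu d * selbergW s y d = (boundingG s y)⁻¹ * (μ d : ℝ) *
      ∑ k ∈ divisors s.prodPrimes,
        if d ∣ k ∧ (k : ℝ) ^ 2 ≤ y then selbergTerms (s := s) k else 0 := by
  have hnu : s.nu d ≠ 0 := nu_ne_zero hd
  have hd0 : d ≠ 0 := ne_zero_of_dvd_ne_zero P_ne_zero hd
  unfold selbergW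
  rw [if_pos hd]
  have key : selbergTerms (s := s) d * ∑ m ∈ divisors s.prodPrimes,
        (if ((d * m : ℕ) : ℝ) ^ 2 ≤ y ∧ m.Coprime d then selbergTerms (s := s) m else 0)
      = ∑ k ∈ divisors s.prodPrimes,
        if d ∣ k ∧ (k : ℝ) ^ 2 ≤ y then selbergTerms (s := s) k else 0 := by
    rw [Finset.mul_sum, ← Finset.sum_filter]
    have h1 : ∀ m ∈ divisors s.prodPrimes,
        selbergTerms (s := s) d *
          (if ((d * m : ℕ) : ℝ) ^ 2 ≤ y ∧ m.Coprime d then selbergTerms (s := s) m else 0)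
        = if ((d * m : ℕ) : ℝ) ^ 2 ≤ y ∧ m.Coprime d then selbergTerms (s := s) (d * m) else 0 := by
      intro m _
      split_ifs with h
      · rw [(selbergTerms_isMultiplicative (s := s)).map_mul_of_coprime h.2.symm]
      · rw [mul_zero]
    rw [Finset.sum_congr rfl h1, ← Finset.sum_filter]
    have hset : ∀ m, m ∈ (divisors s.prodPrimes).filter
        (fun m => ((d * m : ℕ) : ℝ) ^ 2 ≤ y ∧ m.Coprime d) ↔
        (m ∣ s.prodPrimes ∧ ((d * m : ℕ) : ℝ) ^ 2 ≤ y ∧ m.Coprime d) := by
      intro m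
      simp only [mem_filter, Nat.mem_divisors]
      constructor
      · rintro ⟨⟨h1, _⟩, h2⟩; exact ⟨h1, h2⟩
      · rintro ⟨h1, h2⟩; exact ⟨⟨h1, P_ne_zero⟩, h2⟩
    refine Finset.sum_bij (fun m _ => d * m) ?_ ?_ ?_ ?_
    · intro m hm
      rw [hset] at hm
      obtain ⟨h1, h2, h3⟩ := hm
      simp only [mem_filter, Nat.mem_divisors]
      refine ⟨⟨?_, P_ne_zero⟩, Dvd.intro _ rfl, h2⟩
      exact h3.symm.mul_dvd_of_dvd_of_dvd hd h1
    · intro a _ b _ h
      exact Nat.eq_of_mul_eq_mul_left (Nat.pos_of_ne_zero hd0) h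
    · intro k hk
      simp only [mem_filter, Nat.mem_divisors] at hk
      obtain ⟨⟨h1, _⟩, ⟨m, rfl⟩, h2⟩ := hk
      refine ⟨m, ?_, rfl⟩
      rw [hset]
      refine ⟨(Dvd.intro_left _ rfl).trans h1, h2, ?_⟩
      exact (Nat.coprime_of_squarefree_mul
        (s.prodPrimes_squarefree.squarefree_of_dvd h1)).symm
    · intro m _; rfl
  rw [← key]
  field_simp

/-- Selberg's diagonalisation identity. -/
lemma sum_nu_mul_selbergW {l : ℕ} (hl : l ∣ s.prodPrimes) :
    (∑ d ∈ divisors s.prodPrimes, if l ∣ d then s.nu d * selbergW s y d else 0)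
      = if (l : ℝ) ^ 2 ≤ y then (boundingG s y)⁻¹ * (μ l : ℝ) * selbergTerms (s := s) l else 0 := by
  have h1 : ∀ d ∈ divisors s.prodPrimes,
      (if l ∣ d then s.nu d * selbergW s y d else 0)
      = ∑ k ∈ divisors s.prodPrimes, (if (k : ℝ) ^ 2 ≤ y then
          (boundingG s y)⁻¹ * selbergTerms (s := s) k *
            (if d ∣ k then (if l ∣ d then (μ d : ℝ) else 0) else 0) else 0) := by
    intro d hd
    by_cases hld : l ∣ d
    · rw [if_pos hld, nu_mul_selbergW (Nat.mem_divisors.mp hd).1, Finset.mul_sum]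
      refine Finset.sum_congr rfl fun k _ => ?_
      by_cases h1 : d ∣ k <;> by_cases h2 : (k : ℝ) ^ 2 ≤ y <;> simp [h1, h2, hld]
      ring
    · rw [if_neg hld]
      symm
      apply Finset.sum_eq_zero
      intro k _
      simp [hld]
  rw [Finset.sum_congr rfl h1, Finset.sum_comm]
  have h2 : ∀ k ∈ divisors s.prodPrimes,
      (∑ d ∈ divisors s.prodPrimes, (if (k : ℝ) ^ 2 ≤ y then
          (boundingG s y)⁻¹ * selbergTerms (s := s) k *
            (if d ∣ k then (if l ∣ d then (μ d : ℝ) else 0) else 0) else 0))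
      = if k = l then (if (l : ℝ) ^ 2 ≤ y then
          (boundingG s y)⁻¹ * (μ l : ℝ) * selbergTerms (s := s) l else 0) else 0 := by
    intro k hk
    have hkP := (Nat.mem_divisors.mp hk).1
    have hksq := s.prodPrimes_squarefree.squarefree_of_dvd hkP
    by_cases hky : (k : ℝ) ^ 2 ≤ y
    · simp only [if_pos hky]
      rw [← Finset.mul_sum]
      have h3 : (∑ d ∈ divisors s.prodPrimes,
            if d ∣ k then (if l ∣ d then (μ d : ℝ) else 0) else 0)
          = ∑ d ∈ k.divisors, if l ∣ d then (μ d : ℝ) else 0 := by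
        rw [← Finset.sum_filter, Nat.divisors_filter_dvd_of_dvd P_ne_zero hkP]
      rw [h3, sum_moebius_between l k hksq]
      by_cases hkl : l = k
      · subst hkl; simp [hky]; ring
      · have : ¬ k = l := fun h => hkl h.symm
        simp [hkl, this]
    · simp only [if_neg hky, Finset.sum_const_zero]
      split_ifs with h3 h4
      · subst h3; exact absurd h4 hky
      · rfl
      · rfl
  rw [Finset.sum_congr rfl h2, Finset.sum_ite_eq', if_pos]
  rw [Nat.mem_divisors]; exact ⟨hl, P_ne_zero⟩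

/-- The main term of Selberg's sieve is `1 / G`. -/
theorem mainSum_selbergW (hy : 1 ≤ y) :
    mainSum (s := s) (lambdaSquared (selbergW s y)) = (boundingG s y)⁻¹ := by
  have hG := boundingG_pos (s := s) hy
  rw [mainSum_lambdaSquared_eq_sum_mul_sum_sq]
  have h1 : ∀ l ∈ divisors s.prodPrimes,
      (selbergTerms (s := s) l)⁻¹ *
        (∑ d ∈ divisors s.prodPrimes, if l ∣ d then s.nu d * selbergW s y d else 0) ^ 2
      = (boundingG s y)⁻¹ ^ 2 *
        (if (l : ℝ) ^ 2 ≤ y then selbergTerms (s := s) l else 0) := by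
    intro l hl
    have hlP := (Nat.mem_divisors.mp hl).1
    have hg := selbergTerms_pos (s := s) hlP
    have hmu : ((μ l : ℤ) : ℝ) ^ 2 = 1 := by
      have := moebius_sq_eq_one_of_squarefree (s.prodPrimes_squarefree.squarefree_of_dvd hlP)
      exact_mod_cast this
    rw [sum_nu_mul_selbergW hlP]
    split_ifs
    · rw [mul_pow, mul_pow, hmu]
      field_simp
    · simp
  rw [Finset.sum_congr rfl h1, ← Finset.mul_sum]
  change (boundingG s y)⁻¹ ^ 2 * boundingG s y = _
  field_simp

lemma abs_selbergW_le_one (hy : 1 ≤ y) (d : ℕ) : |selbergW s y d| ≤ 1 := by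
  have hG := boundingG_pos (s := s) hy
  by_cases hd : d ∣ s.prodPrimes
  swap
  · unfold selbergW; rw [if_neg hd]; simp
  have hd0 : d ≠ 0 := ne_zero_of_dvd_ne_zero P_ne_zero hd
  have hdsq := s.prodPrimes_squarefree.squarefree_of_dvd hd
  have hmu : |((μ d : ℤ) : ℝ)| = 1 := by
    have := abs_moebius_eq_one_of_squarefree hdsq
    exact_mod_cast this
  have hnu := nu_pos_of_dvd_prodPrimes (s := s) hd
  have hgd := selbergTerms_pos (s := s) hd
  set T : ℝ := ∑ m ∈ divisors s.prodPrimes,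
        if ((d * m : ℕ) : ℝ) ^ 2 ≤ y ∧ m.Coprime d then selbergTerms (s := s) m else 0 with hT
  have hT0 : 0 ≤ T := by
    apply Finset.sum_nonneg
    intro m hm
    split_ifs
    · exact (selbergTerms_pos (Nat.mem_divisors.mp hm).1).le
    · exact le_rfl
  -- main inequality `(g(d)/ν(d)) T ≤ G`
  have key : (s.nu d)⁻¹ * selbergTerms (s := s) d * T ≤ boundingG s y := by
    have h1 := sum_divisors_selbergTerms_eq_selbergTerms_mul_nu_inv (s := s) hd
    rw [← Finset.sum_filter, Nat.divisors_filter_dvd_of_dvd P_ne_zero hd] at h1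
    rw [mul_comm (s.nu d)⁻¹, ← h1, hT, Finset.sum_mul_sum]
    -- inject pairs (k, m) into divisors
    have h2 : ∀ k ∈ d.divisors, ∀ m ∈ divisors s.prodPrimes,
        selbergTerms (s := s) k *
          (if ((d * m : ℕ) : ℝ) ^ 2 ≤ y ∧ m.Coprime d then selbergTerms (s := s) m else 0)
        = if ((d * m : ℕ) : ℝ) ^ 2 ≤ y ∧ m.Coprime d then selbergTerms (s := s) (k * m) else 0 := by
      intro k hk m _
      split_ifs with h
      · rw [(selbergTerms_isMultiplicative (s := s)).map_mul_of_coprime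
          (h.2.symm.coprime_dvd_left (Nat.mem_divisors.mp hk).1)]
      · rw [mul_zero]
    rw [Finset.sum_congr rfl (fun k hk => Finset.sum_congr rfl (h2 k hk)), ← Finset.sum_product',
      ← Finset.sum_filter]
    unfold boundingG
    rw [← Finset.sum_filter]
    have hinj : Set.InjOn (fun x : ℕ × ℕ => x.1 * x.2)
        (((d.divisors ×ˢ divisors s.prodPrimes).filter
          (fun x => ((d * x.2 : ℕ) : ℝ) ^ 2 ≤ y ∧ x.2.Coprime d) : Finset (ℕ × ℕ)) : Set (ℕ × ℕ)) := by
      rintro ⟨a, b⟩ hab ⟨a', b'⟩ hab' h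
      simp only [coe_filter, mem_product, Nat.mem_divisors, Set.mem_ofPred_eq] at hab hab' h
      obtain ⟨⟨⟨ha, _⟩, hb, _⟩, _, hbd⟩ := hab
      obtain ⟨⟨⟨ha', _⟩, hb', _⟩, _, hbd'⟩ := hab'
      have e1 : Nat.gcd d (a * b) = a := by
        rw [Nat.Coprime.gcd_mul_right_cancel_right a hbd]
        exact Nat.gcd_eq_right ha
      have e2 : Nat.gcd d (a' * b') = a' := by
        rw [Nat.Coprime.gcd_mul_right_cancel_right a' hbd']
        exact Nat.gcd_eq_right ha'
      have e3 : a = a' := by rw [← e1, ← e2, h]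
      subst e3
      have ha0 : 0 < a := Nat.pos_of_dvd_of_pos ha (Nat.pos_of_ne_zero hd0)
      have e4 : b = b' := Nat.eq_of_mul_eq_mul_left ha0 h
      rw [e4]
    rw [← Finset.sum_image (f := fun n => selbergTerms (s := s) n) hinj]
    apply Finset.sum_le_sum_of_subset_of_nonneg
    · intro n hn
      simp only [mem_image, mem_filter, mem_product, Nat.mem_divisors, Prod.exists] at hn
      obtain ⟨a, b, ⟨⟨⟨ha, _⟩, hb, _⟩, hy', hbd⟩, rfl⟩ := hn
      simp only [mem_filter, Nat.mem_divisors]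
      refine ⟨⟨?_, P_ne_zero⟩, ?_⟩
      · exact (hbd.symm.coprime_dvd_left ha).mul_dvd_of_dvd_of_dvd (ha.trans hd) hb
      · refine le_trans ?_ hy'
        have : a * b ≤ d * b := Nat.mul_le_mul_right b (Nat.le_of_dvd (Nat.pos_of_ne_zero hd0) ha)
        gcongr
    · intro n hn _
      exact (selbergTerms_pos (Nat.mem_divisors.mp (mem_filter.mp hn).1).1).le
  unfold selbergW
  rw [if_pos hd, ← hT]
  rw [abs_mul, abs_mul, abs_mul, hmu, abs_of_nonneg (a := T) hT0,
    abs_of_pos (a := (boundingG s y)⁻¹) (inv_pos.mpr hG),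
    abs_of_pos (a := (s.nu d)⁻¹ * selbergTerms (s := s) d) (by positivity)]
  rw [mul_one]
  have : (s.nu d)⁻¹ * selbergTerms (s := s) d * (boundingG s y)⁻¹ * T
      = ((s.nu d)⁻¹ * selbergTerms (s := s) d * T) / boundingG s y := by
    field_simp
  rw [this, div_le_one hG]
  exact key

lemma selbergW_eq_zero_of_lt {d : ℕ} (hd : y < (d : ℝ) ^ 2) : selbergW s y d = 0 := by
  unfold selbergW
  split_ifs with h
  · have : (∑ m ∈ divisors s.prodPrimes,
        if ((d * m : ℕ) : ℝ) ^ 2 ≤ y ∧ m.Coprime d then selbergTerms (s := s) m else 0) = 0 := by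
      apply Finset.sum_eq_zero
      intro m hm
      rw [if_neg]
      rintro ⟨h1, _⟩
      have hm0 : 1 ≤ m := Nat.pos_of_dvd_of_pos (Nat.mem_divisors.mp hm).1
        (Nat.pos_of_ne_zero P_ne_zero)
      have h2 : (d : ℝ) ^ 2 ≤ ((d * m : ℕ) : ℝ) ^ 2 := by
        have : d ≤ d * m := Nat.le_mul_of_pos_right d hm0
        gcongr
      linarith
    rw [this, mul_zero]
  · rfl

lemma abs_lambdaSquared_le (hy : 1 ≤ y) {d : ℕ} (hd : Squarefree d) :
    |lambdaSquared (selbergW s y) d| ≤ if (d : ℝ) ≤ y then (3 : ℝ) ^ ω d else 0 := by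
  have hy0 : 0 ≤ y := by linarith
  unfold lambdaSquared
  split_ifs with hdy
  · calc |∑ d1 ∈ d.divisors, ∑ d2 ∈ d.divisors,
          if d = Nat.lcm d1 d2 then selbergW s y d1 * selbergW s y d2 else 0|
        ≤ ∑ d1 ∈ d.divisors, ∑ d2 ∈ d.divisors,
          |if d = Nat.lcm d1 d2 then selbergW s y d1 * selbergW s y d2 else 0| := by
          refine (Finset.abs_sum_le_sum_abs _ _).trans ?_
          exact Finset.sum_le_sum fun i _ => Finset.abs_sum_le_sum_abs _ _
      _ ≤ ∑ d1 ∈ d.divisors, ∑ d2 ∈ d.divisors, if d1.lcm d2 = d then (1 : ℝ) else 0 := by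
          refine Finset.sum_le_sum fun i _ => Finset.sum_le_sum fun j _ => ?_
          by_cases h : i.lcm j = d
          · rw [if_pos h.symm, if_pos h, abs_mul]
            exact mul_le_one₀ (abs_selbergW_le_one hy i) (abs_nonneg _) (abs_selbergW_le_one hy j)
          · rw [if_neg (fun h' => h h'.symm), if_neg h]; simp
      _ = (3 : ℝ) ^ ω d := by
          rw [← Finset.sum_product', ← Finset.sum_filter, Finset.sum_const, nsmul_eq_mul, mul_one]
          have := Nat.card_pair_lcm_eq hd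
          rw [← Nat.cast_ofNat (R := ℝ), ← Nat.cast_pow, ← this]
  · push Not at hdy
    have : (∑ d1 ∈ d.divisors, ∑ d2 ∈ d.divisors,
          if d = Nat.lcm d1 d2 then selbergW s y d1 * selbergW s y d2 else 0) = 0 := by
      apply Finset.sum_eq_zero
      intro i hi
      apply Finset.sum_eq_zero
      intro j hj
      split_ifs with h
      · by_cases hi2 : y < (i : ℝ) ^ 2
        · rw [selbergW_eq_zero_of_lt hi2, zero_mul]
        · by_cases hj2 : y < (j : ℝ) ^ 2
          · rw [selbergW_eq_zero_of_lt hj2, mul_zero]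
          · exfalso
            push Not at hi2 hj2
            have h1 : (d : ℝ) ≤ (i : ℝ) * j := by
              rw [← Nat.cast_mul, h]
              have hi0 := Nat.pos_of_mem_divisors hi
              have hj0 := Nat.pos_of_mem_divisors hj
              exact_mod_cast Nat.le_of_dvd (Nat.mul_pos hi0 hj0) (Nat.lcm_dvd_mul i j)
            have h2 : ((i : ℝ) * j) ^ 2 ≤ y ^ 2 := by
              rw [mul_pow, sq y]
              exact mul_le_mul hi2 hj2 (by positivity) hy0
            have h3 : (i : ℝ) * j ≤ y := by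
              exact le_of_sq_le_sq h2 hy0 |> fun h => h
            linarith
      · rfl
    rw [this, abs_zero]

/-- **Selberg's upper bound sieve.** -/
theorem selberg_bound (s : BoundingSieve) (y : ℝ) (hy : 1 ≤ y) :
    siftedSum (s := s) ≤ s.totalMass / boundingG s y +
      ∑ d ∈ divisors s.prodPrimes, if (d : ℝ) ≤ y then (3 : ℝ) ^ ω d * |rem (s := s) d| else 0 := by
  have h1 := siftedSum_le_mainSum_errSum_of_upperMoebius (s := s) _
    (upperMoebius_lambdaSquared (selbergW s y) (selbergW_one hy))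
  rw [mainSum_selbergW hy] at h1
  refine h1.trans ?_
  rw [← div_eq_mul_inv]
  gcongr
  unfold errSum
  refine Finset.sum_le_sum fun d hd => ?_
  have hd' := s.prodPrimes_squarefree.squarefree_of_dvd (Nat.mem_divisors.mp hd).1
  have h2 := abs_lambdaSquared_le (s := s) hy hd'
  split_ifs with h3
  · rw [if_pos h3] at h2
    exact mul_le_mul_of_nonneg_right h2 (abs_nonneg _)
  · rw [if_neg h3] at h2
    have : |lambdaSquared (selbergW s y) d| = 0 := le_antisymm h2 (abs_nonneg _)
    rw [this, zero_mul]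

end

end Pool.Agent.Lib.Sieve
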