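import Mathlib
import Pool.Agent.Lib.Sieve.Selberg

/-!
# The Selberg sieve for residue classes

`selberg_abstract`: a general form, for an arbitrary finite set of objects and arbitrary
removal conditions `B p a`.

`selberg_residue`: the number of `n` in an interval of length `N` with `n mod p ∉ Ω p` for all
`p ∣ P` is at most `N / G + ∑_{d ∣ P, d ≤ y} 3 ^ ω(d) ∏_{p ∣ d} |Ω p|`, with
`G = ∑_{l ∣ P, l² ≤ y} ∏_{p ∣ l} |Ω p| / (p - |Ω p|)`.
-/

namespace Pool.Agent.Lib.Sieve

open Finset Nat ArithmeticFunction BoundingSieve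
open scoped ArithmeticFunction.Moebius ArithmeticFunction.omega

noncomputable section

open Classical in
/-- General form of the Selberg sieve. `A` is a finite set of objects, `B p a` says that `a` is
removed by the prime `p`. -/
theorem selberg_abstract {α : Type*} (A : Finset α) (B : ℕ → α → Prop) (P : ℕ)
    (hP : Squarefree P) (w : ℕ → ℝ) (hw0 : ∀ p ∈ P.primeFactors, 0 < w p)
    (hw1 : ∀ p ∈ P.primeFactors, w p < 1) (X : ℝ) (r : ℕ → ℝ)
    (hr : ∀ d ∈ P.divisors, |((A.filter (fun a => ∀ p ∈ d.primeFactors, B p a)).card : ℝ)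
      - (∏ p ∈ d.primeFactors, w p) * X| ≤ r d) (y : ℝ) (hy : 1 ≤ y) :
    ((A.filter (fun a => ∀ p ∈ P.primeFactors, ¬ B p a)).card : ℝ) ≤
      X / (∑ l ∈ P.divisors, if (l : ℝ) ^ 2 ≤ y then ∏ p ∈ l.primeFactors, w p / (1 - w p) else 0)
      + ∑ d ∈ P.divisors, if (d : ℝ) ≤ y then (3 : ℝ) ^ ω d * r d else 0 := by
  have hP0 : P ≠ 0 := hP.ne_zero
  -- the part of `P` removing `a`
  let D : α → ℕ := fun a => ∏ p ∈ P.primeFactors.filter (fun p => B p a), p
  have hDdvd : ∀ a, D a ∣ P := by
    intro a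
    have h1 : D a ∣ ∏ p ∈ P.primeFactors, p :=
      Finset.prod_dvd_prod_of_subset _ _ _ (Finset.filter_subset _ _)
    rwa [Nat.prod_primeFactors_of_squarefree hP] at h1
  have hDpf : ∀ a, (D a).primeFactors = P.primeFactors.filter (fun p => B p a) := by
    intro a
    exact Nat.primeFactors_prod (fun p hp => Nat.prime_of_mem_primeFactors (mem_filter.mp hp).1)
  have hdD : ∀ d ∈ P.divisors, ∀ a, d ∣ D a ↔ ∀ p ∈ d.primeFactors, B p a := by
    intro d hd a
    have hdP := (Nat.mem_divisors.mp hd).1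
    have hdsq := hP.squarefree_of_dvd hdP
    constructor
    · intro h p hp
      have : p ∈ (D a).primeFactors :=
        Nat.primeFactors_mono h (ne_zero_of_dvd_ne_zero hP0 (hDdvd a)) hp
      rw [hDpf] at this
      exact (mem_filter.mp this).2
    · intro h
      rw [← Nat.prod_primeFactors_of_squarefree hdsq]
      apply Finset.prod_dvd_prod_of_subset
      intro p hp
      rw [mem_filter]
      exact ⟨Nat.primeFactors_mono hdP hP0 hp, h p hp⟩
  let nu : ArithmeticFunction ℝ := ArithmeticFunction.prodPrimeFactors w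
  have hnu : nu.IsMultiplicative := IsMultiplicative.prodPrimeFactors w
  have hnu_apply : ∀ d : ℕ, d ≠ 0 → nu d = ∏ p ∈ d.primeFactors, w p := fun d hd =>
    ArithmeticFunction.prodPrimeFactors_apply hd
  have hnu_prime : ∀ p : ℕ, p.Prime → nu p = w p := by
    intro p hp
    rw [hnu_apply p hp.ne_zero, hp.primeFactors, Finset.prod_singleton]
  let s : BoundingSieve :=
    { support := P.divisors
      prodPrimes := P
      prodPrimes_squarefree := hP
      weights := fun m => ((A.filter (fun a => D a = m)).card : ℝ)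
      weights_nonneg := fun m => Nat.cast_nonneg _
      totalMass := X
      nu := nu
      nu_mult := hnu
      nu_pos_of_prime := fun p hp hd => by
        rw [hnu_prime p hp]; exact hw0 p (Nat.mem_primeFactors.mpr ⟨hp, hd, hP0⟩)
      nu_lt_one_of_prime := fun p hp hd => by
        rw [hnu_prime p hp]; exact hw1 p (Nat.mem_primeFactors.mpr ⟨hp, hd, hP0⟩) }
  have h1 := selberg_bound s y hy
  -- sifted sum
  have h2 : siftedSum (s := s) = ((A.filter (fun a => ∀ p ∈ P.primeFactors, ¬ B p a)).card : ℝ) := by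
    unfold siftedSum
    change (∑ d ∈ P.divisors, if Nat.Coprime P d then
      ((A.filter (fun a => D a = d)).card : ℝ) else 0) = _
    have h3 : ∀ d ∈ P.divisors, (if Nat.Coprime P d then
        ((A.filter (fun a => D a = d)).card : ℝ) else 0)
        = if d = 1 then ((A.filter (fun a => D a = 1)).card : ℝ) else 0 := by
      intro d hd
      have hdP := (Nat.mem_divisors.mp hd).1
      by_cases h : d = 1
      · subst h; simp
      · rw [if_neg h, if_neg]
        intro hc
        exact h (Nat.eq_one_of_dvd_coprimes hc hdP dvd_rfl)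
    rw [Finset.sum_congr rfl h3, Finset.sum_ite_eq', if_pos (Nat.mem_divisors.mpr ⟨one_dvd _, hP0⟩)]
    congr 2
    ext a
    simp only [mem_filter, and_congr_right_iff]
    intro _
    constructor
    · intro h p hp hB
      have : p ∈ (D a).primeFactors := by rw [hDpf]; exact mem_filter.mpr ⟨hp, hB⟩
      rw [h] at this
      simp at this
    · intro h
      have : P.primeFactors.filter (fun p => B p a) = ∅ := by
        rw [Finset.filter_eq_empty_iff]
        exact h
      change ∏ p ∈ P.primeFactors.filter (fun p => B p a), p = 1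
      rw [this, Finset.prod_empty]
  -- remainder
  have h4 : ∀ d ∈ P.divisors, |rem (s := s) d| ≤ r d := by
    intro d hd
    refine le_of_eq_of_le ?_ (hr d hd)
    unfold rem multSum
    change |(∑ n ∈ P.divisors, if d ∣ n then ((A.filter (fun a => D a = n)).card : ℝ) else 0)
      - nu d * X| = _
    rw [hnu_apply d (ne_zero_of_dvd_ne_zero hP0 (Nat.mem_divisors.mp hd).1)]
    congr 2
    rw [← Finset.sum_filter, ← Nat.cast_sum, Nat.cast_inj]
    rw [← Finset.card_biUnion]
    · congr 1
      ext a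
      simp only [mem_biUnion, mem_filter, Nat.mem_divisors]
      constructor
      · rintro ⟨n, ⟨⟨_, _⟩, hdn⟩, ha, rfl⟩
        exact ⟨ha, (hdD d hd a).mp hdn⟩
      · rintro ⟨ha, h⟩
        exact ⟨D a, ⟨⟨hDdvd a, hP0⟩, (hdD d hd a).mpr h⟩, ha, rfl⟩
    · intro m _ n _ hmn
      rw [Function.onFun, Finset.disjoint_left]
      intro a ha hb
      exact hmn ((mem_filter.mp ha).2.symm.trans (mem_filter.mp hb).2)
  -- the bounding sum
  have h5 : boundingG s y = ∑ l ∈ P.divisors,
      if (l : ℝ) ^ 2 ≤ y then ∏ p ∈ l.primeFactors, w p / (1 - w p) else 0 := by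
    unfold boundingG
    refine Finset.sum_congr rfl fun l hl => ?_
    have hl' : l ∈ P.divisors := hl
    congr 1
    rw [selbergTerms_apply]
    have h6 : s.nu l = ∏ p ∈ l.primeFactors, w p :=
      hnu_apply l (ne_zero_of_dvd_ne_zero hP0 (Nat.mem_divisors.mp hl').1)
    rw [h6, ← Finset.prod_mul_distrib]
    refine Finset.prod_congr rfl fun p hp => ?_
    have h7 : s.nu p = w p := hnu_prime p (Nat.prime_of_mem_primeFactors hp)
    rw [h7, div_eq_mul_inv]
  rw [h2, h5] at h1
  refine h1.trans ?_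
  change X / _ + (∑ d ∈ P.divisors, if (d : ℝ) ≤ y then (3 : ℝ) ^ ω d * |rem (s := s) d| else 0) ≤ _
  gcongr with d hd
  split_ifs
  · exact mul_le_mul_of_nonneg_left (h4 d hd) (by positivity)
  · exact le_rfl

/-- Residues mod `d` compatible with the removal classes `Ω p`, `p ∣ d`. -/
def goodRes (Ω : ℕ → Finset ℕ) (d : ℕ) : Finset ℕ :=
  (range d).filter (fun n => ∀ p ∈ d.primeFactors, n % p ∈ Ω p)

lemma card_goodRes_mul (Ω : ℕ → Finset ℕ) {a b : ℕ} (ha : a ≠ 0) (hb : b ≠ 0)
    (hab : a.Coprime b) :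
    (goodRes Ω (a * b)).card = (goodRes Ω a).card * (goodRes Ω b).card := by
  rw [← Finset.card_product]
  have hpf : (a * b).primeFactors = a.primeFactors ∪ b.primeFactors := Nat.primeFactors_mul ha hb
  refine Finset.card_nbij' (fun r => (r % a, r % b))
    (fun x => (Nat.chineseRemainder hab x.1 x.2 : ℕ)) ?_ ?_ ?_ ?_
  · intro r hr
    simp only [goodRes, coe_filter, mem_range, Set.mem_ofPred_eq, hpf, mem_union] at hr
    simp only [goodRes, coe_product, Set.mem_prod, coe_filter, mem_range, Set.mem_ofPred_eq]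
    refine ⟨⟨Nat.mod_lt _ (Nat.pos_of_ne_zero ha), ?_⟩, Nat.mod_lt _ (Nat.pos_of_ne_zero hb), ?_⟩
    · intro p hp
      rw [Nat.mod_mod_of_dvd _ (Nat.dvd_of_mem_primeFactors hp)]
      exact hr.2 p (Or.inl hp)
    · intro p hp
      rw [Nat.mod_mod_of_dvd _ (Nat.dvd_of_mem_primeFactors hp)]
      exact hr.2 p (Or.inr hp)
  · rintro ⟨x, z⟩ hx
    simp only [goodRes, coe_product, Set.mem_prod, coe_filter, mem_range, Set.mem_ofPred_eq] at hx
    simp only [goodRes, coe_filter, mem_range, Set.mem_ofPred_eq, hpf, mem_union]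
    obtain ⟨h1, h2⟩ := (Nat.chineseRemainder hab x z).2
    refine ⟨Nat.chineseRemainder_lt_mul hab x z ha hb, ?_⟩
    intro p hp
    rcases hp with hp | hp
    · have : (Nat.chineseRemainder hab x z : ℕ) % p = x % p :=
        Nat.ModEq.of_dvd (Nat.dvd_of_mem_primeFactors hp) h1
      rw [this]; exact hx.1.2 p hp
    · have : (Nat.chineseRemainder hab x z : ℕ) % p = z % p :=
        Nat.ModEq.of_dvd (Nat.dvd_of_mem_primeFactors hp) h2
      rw [this]; exact hx.2.2 p hp
  · intro r hr
    simp only [goodRes, coe_filter, mem_range, Set.mem_ofPred_eq] at hr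
    obtain ⟨h1, h2⟩ := (Nat.chineseRemainder hab (r % a) (r % b)).2
    have h3 := Nat.chineseRemainder_lt_mul hab (r % a) (r % b) ha hb
    have h4 : (Nat.chineseRemainder hab (r % a) (r % b) : ℕ) ≡ r [MOD a * b] :=
      (Nat.modEq_and_modEq_iff_modEq_mul hab).mp
        ⟨h1.trans (Nat.mod_modEq _ _), h2.trans (Nat.mod_modEq _ _)⟩
    exact Nat.ModEq.eq_of_lt_of_lt h4 h3 hr.1
  · rintro ⟨x, z⟩ hx
    simp only [goodRes, coe_product, Set.mem_prod, coe_filter, mem_range, Set.mem_ofPred_eq] at hx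
    obtain ⟨h1, h2⟩ := (Nat.chineseRemainder hab x z).2
    simp only [Prod.mk.injEq]
    refine ⟨?_, ?_⟩
    · have h3 : (Nat.chineseRemainder hab x z : ℕ) % a = x % a := h1
      rw [h3, Nat.mod_eq_of_lt hx.1.1]
    · have h3 : (Nat.chineseRemainder hab x z : ℕ) % b = z % b := h2
      rw [h3, Nat.mod_eq_of_lt hx.2.1]

lemma card_goodRes (Ω : ℕ → Finset ℕ) {d : ℕ} (hd : Squarefree d)
    (hΩ : ∀ p ∈ d.primeFactors, Ω p ⊆ range p) :
    (goodRes Ω d).card = ∏ p ∈ d.primeFactors, (Ω p).card := by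
  induction d using Nat.recOnPosPrimePosCoprime with
  | prime_pow p n hp hn =>
    have hn1 : n = 1 := by
      by_contra h
      have h2 : 2 ≤ n := by omega
      have h3 : p * p ∣ p ^ n := by
        rw [← sq]; exact pow_dvd_pow p h2
      have := hd p h3
      exact hp.one_lt.ne' (Nat.isUnit_iff.mp this)
    subst hn1
    rw [pow_one] at *
    rw [hp.primeFactors] at *
    rw [Finset.prod_singleton]
    congr 1
    ext r
    simp only [goodRes, mem_filter, mem_range, hp.primeFactors, mem_singleton, forall_eq]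
    constructor
    · rintro ⟨h1, h2⟩
      rwa [Nat.mod_eq_of_lt h1] at h2
    · intro h
      have h1 := mem_range.mp (hΩ p (mem_singleton_self p) h)
      exact ⟨h1, by rwa [Nat.mod_eq_of_lt h1]⟩
  | zero => exact absurd rfl hd.ne_zero
  | one => simp [goodRes]
  | coprime a b ha hb hab iha ihb =>
    have ha0 : a ≠ 0 := by omega
    have hb0 : b ≠ 0 := by omega
    rw [card_goodRes_mul Ω ha0 hb0 hab, Nat.primeFactors_mul ha0 hb0,
      Finset.prod_union hab.disjoint_primeFactors]
    rw [Nat.primeFactors_mul ha0 hb0] at hΩ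
    rw [iha (hd.squarefree_of_dvd (Dvd.intro _ rfl)) (fun p hp => hΩ p (mem_union_left _ hp)),
      ihb (hd.squarefree_of_dvd (Dvd.intro_left _ rfl)) (fun p hp => hΩ p (mem_union_right _ hp))]

lemma abs_card_modEq_sub_le (M N : ℕ) {d : ℕ} (hd : 0 < d) (r : ℕ) :
    |(((Ico M (M + N)).filter (fun n => n ≡ r [MOD d])).card : ℝ) - (N : ℝ) / d| ≤ 1 := by
  have h := Nat.Ico_filter_modEq_card M (M + N) hd r
  have hdq : (0 : ℚ) < d := by exact_mod_cast hd
  set x : ℚ := ((M : ℚ) - r) / d with hx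
  have h1 : (((M + N : ℕ) : ℚ) - r) / d = x + N / d := by
    rw [hx]; push_cast; field_simp; ring
  rw [h1] at h
  have h2 : (0 : ℚ) ≤ (N : ℚ) / d := by positivity
  have h3 : ⌈x⌉ ≤ ⌈x + N / d⌉ := Int.ceil_le_ceil (by linarith)
  rw [max_eq_left (by omega)] at h
  have h4 : ((((Ico M (M + N)).filter (fun n => n ≡ r [MOD d])).card : ℕ) : ℚ)
      = (⌈x + N / d⌉ : ℚ) - ⌈x⌉ := by
    have := congrArg (fun z : ℤ => (z : ℚ)) h
    push_cast at this
    exact_mod_cast this
  have h5 : |((((Ico M (M + N)).filter (fun n => n ≡ r [MOD d])).card : ℕ) : ℚ) - (N : ℚ) / d| ≤ 1 := by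
    rw [h4, abs_le]
    have a1 := Int.le_ceil (x + (N : ℚ) / d)
    have a2 := Int.ceil_lt_add_one (x + (N : ℚ) / d)
    have a3 := Int.le_ceil x
    have a4 := Int.ceil_lt_add_one x
    constructor <;> linarith
  have h6 := (Rat.cast_le (K := ℝ)).mpr h5
  push_cast at h6
  exact h6

lemma abs_card_res_sub_le (M N : ℕ) {d : ℕ} (hd : 0 < d) (T : Finset ℕ) (hT : T ⊆ range d) :
    |(((Ico M (M + N)).filter (fun n => n % d ∈ T)).card : ℝ) - (T.card : ℝ) * N / d| ≤ T.card := by
  have h1 : ((Ico M (M + N)).filter (fun n => n % d ∈ T)).card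
      = ∑ r ∈ T, ((Ico M (M + N)).filter (fun n => n ≡ r [MOD d])).card := by
    rw [← Finset.card_biUnion]
    · congr 1
      ext n
      simp only [mem_filter, mem_biUnion]
      constructor
      · rintro ⟨h1, h2⟩
        exact ⟨n % d, h2, h1, (Nat.mod_modEq n d).symm⟩
      · rintro ⟨r, hr, h1, h2⟩
        refine ⟨h1, ?_⟩
        have h3 : n % d = r % d := h2
        rw [h3, Nat.mod_eq_of_lt (mem_range.mp (hT hr))]
        exact hr
    · intro a ha b hb hab
      rw [Function.onFun, Finset.disjoint_left]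
      intro n hn hn'
      have h3 : n % d = a % d := (mem_filter.mp hn).2
      have h4 : n % d = b % d := (mem_filter.mp hn').2
      rw [Nat.mod_eq_of_lt (mem_range.mp (hT ha))] at h3
      rw [Nat.mod_eq_of_lt (mem_range.mp (hT hb))] at h4
      exact hab (h3.symm.trans h4)
  rw [h1]
  push_cast
  have h2 : (T.card : ℝ) * N / d = ∑ r ∈ T, (N : ℝ) / d := by
    rw [Finset.sum_const, nsmul_eq_mul]; ring
  rw [h2, ← Finset.sum_sub_distrib]
  refine (Finset.abs_sum_le_sum_abs _ _).trans ?_
  calc ∑ r ∈ T, |(((Ico M (M + N)).filter (fun n => n ≡ r [MOD d])).card : ℝ) - (N : ℝ) / d|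
      ≤ ∑ r ∈ T, (1 : ℝ) := Finset.sum_le_sum fun r _ => abs_card_modEq_sub_le M N hd r
    _ = T.card := by simp

/-- **Selberg's sieve for residue classes.** -/
theorem selberg_residue (P : ℕ) (hP : Squarefree P) (Ω : ℕ → Finset ℕ)
    (hΩ : ∀ p ∈ P.primeFactors, Ω p ⊆ range p)
    (hΩ0 : ∀ p ∈ P.primeFactors, 0 < (Ω p).card)
    (hΩ1 : ∀ p ∈ P.primeFactors, (Ω p).card < p)
    (M N : ℕ) (y : ℝ) (hy : 1 ≤ y) :
    (((Ico M (M + N)).filter (fun n => ∀ p ∈ P.primeFactors, n % p ∉ Ω p)).card : ℝ) ≤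
      N / (∑ l ∈ P.divisors, if (l : ℝ) ^ 2 ≤ y then
        ∏ p ∈ l.primeFactors, ((Ω p).card : ℝ) / (p - (Ω p).card) else 0)
      + ∑ d ∈ P.divisors, if (d : ℝ) ≤ y then
          (3 : ℝ) ^ ω d * ∏ p ∈ d.primeFactors, ((Ω p).card : ℝ) else 0 := by
  classical
  have hppos : ∀ p ∈ P.primeFactors, (0 : ℝ) < p := fun p hp => by
    exact_mod_cast (Nat.prime_of_mem_primeFactors hp).pos
  have h := selberg_abstract (Ico M (M + N)) (fun p n => n % p ∈ Ω p) P hP
    (fun p => ((Ω p).card : ℝ) / p)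
    (fun p hp => by
      have h1 := hppos p hp
      have h2 : (0 : ℝ) < (Ω p).card := by exact_mod_cast hΩ0 p hp
      positivity)
    (fun p hp => by
      rw [div_lt_one (hppos p hp)]; exact_mod_cast hΩ1 p hp)
    N (fun d => ∏ p ∈ d.primeFactors, ((Ω p).card : ℝ))
    (by
      intro d hd
      have hdP := (Nat.mem_divisors.mp hd).1
      have hdsq := hP.squarefree_of_dvd hdP
      have hd0 : 0 < d := Nat.pos_of_ne_zero hdsq.ne_zero
      have hsub : d.primeFactors ⊆ P.primeFactors := Nat.primeFactors_mono hdP hP.ne_zero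
      have hcard := card_goodRes Ω hdsq (fun p hp => hΩ p (hsub hp))
      have h1 := abs_card_res_sub_le M N hd0 (goodRes Ω d) (Finset.filter_subset _ _)
      have h2 : ((Ico M (M + N)).filter (fun n => n % d ∈ goodRes Ω d))
          = ((Ico M (M + N)).filter (fun a => ∀ p ∈ d.primeFactors, a % p ∈ Ω p)) := by
        ext n
        simp only [mem_filter, goodRes, mem_range, and_congr_right_iff]
        intro _
        constructor
        · rintro ⟨_, h⟩ p hp
          have := h p hp
          rwa [Nat.mod_mod_of_dvd _ (Nat.dvd_of_mem_primeFactors hp)] at this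
        · intro h
          refine ⟨Nat.mod_lt _ hd0, fun p hp => ?_⟩
          rw [Nat.mod_mod_of_dvd _ (Nat.dvd_of_mem_primeFactors hp)]
          exact h p hp
      rw [h2] at h1
      have h3 : (∏ p ∈ d.primeFactors, ((Ω p).card : ℝ) / p) * N
          = ((goodRes Ω d).card : ℝ) * N / d := by
        rw [Finset.prod_div_distrib, hcard]
        have : (∏ p ∈ d.primeFactors, (p : ℝ)) = d := by
          rw [← Nat.cast_prod, Nat.prod_primeFactors_of_squarefree hdsq]
        rw [this]; push_cast; ring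
      have h4 : ((goodRes Ω d).card : ℝ) = ∏ p ∈ d.primeFactors, ((Ω p).card : ℝ) := by
        rw [hcard]; push_cast; rfl
      rw [h3, ← h4]
      convert h1) y hy
  refine le_trans (le_of_eq ?_) (h.trans (le_of_eq ?_))
  · congr 2
    ext n
    simp only [mem_filter]
  congr 2
  refine Finset.sum_congr rfl fun l hl => ?_
  congr 1
  refine Finset.prod_congr rfl fun p hp => ?_
  have hp' : p ∈ P.primeFactors :=
    Nat.primeFactors_mono (Nat.mem_divisors.mp hl).1 hP.ne_zero hp
  have h1 := hppos p hp'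
  have h2 : (0 : ℝ) < p - (Ω p).card := by
    have : ((Ω p).card : ℝ) < p := by exact_mod_cast hΩ1 p hp'
    linarith
  have h3 : (1 : ℝ) - ((Ω p).card : ℝ) / p ≠ 0 := by
    rw [one_sub_div h1.ne']
    exact div_ne_zero h2.ne' h1.ne'
  rw [div_eq_div_iff h3 h2.ne']
  field_simp

end

end Pool.Agent.Lib.Sieve
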