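import Mathlib
import Pool.Agent.Lib.Sieve.Residue

/-!
# A two-dimensional sieve bound

`two_dim_sieve`: if two residue classes are removed modulo every odd prime `p ≤ T ^ 2`, then
at most `C * N / (log (T + 1)) ^ 2 + C * T ^ 10` elements of an interval of length `N` remain.
-/

namespace Pool.Agent.Lib.Sieve

open Finset Nat ArithmeticFunction
open scoped ArithmeticFunction.omega

noncomputable section

lemma card_divisors_le_two_sqrt (n : ℕ) : n.divisors.card ≤ 2 * Nat.sqrt n := by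
  rcases Nat.eq_zero_or_pos n with h0 | h0
  · subst h0; simp
  have h1 : n.divisors ⊆ (Icc 1 (Nat.sqrt n)) ∪ ((Icc 1 (Nat.sqrt n)).image (fun k => n / k)) := by
    intro d hd
    have hdn := (Nat.mem_divisors.mp hd).1
    have hd0 : 0 < d := Nat.pos_of_dvd_of_pos hdn h0
    rw [mem_union, mem_image]
    rcases Nat.lt_or_ge (Nat.sqrt n) d with h | h
    · right
      refine ⟨n / d, ?_, Nat.div_div_self hdn h0.ne'⟩
      rw [mem_Icc]
      refine ⟨Nat.div_pos (Nat.le_of_dvd h0 hdn) hd0, ?_⟩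
      have h2 : n < (Nat.sqrt n + 1) * (Nat.sqrt n + 1) := Nat.lt_succ_sqrt n
      have h3 : n / d ≤ n / (Nat.sqrt n + 1) := Nat.div_le_div_left h (by omega)
      have h4 : n / (Nat.sqrt n + 1) < Nat.sqrt n + 1 := (Nat.div_lt_iff_lt_mul (by omega)).mpr h2
      omega
    · left; rw [mem_Icc]; exact ⟨hd0, h⟩
  calc n.divisors.card ≤ _ := Finset.card_le_card h1
    _ ≤ _ := Finset.card_union_le _ _
    _ ≤ Nat.sqrt n + Nat.sqrt n := by
        gcongr
        · simp
        · exact Finset.card_image_le.trans (by simp)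
    _ = 2 * Nat.sqrt n := by ring

lemma card_divisors_mul_le (m n : ℕ) :
    (m * n).divisors.card ≤ m.divisors.card * n.divisors.card := by
  rw [Nat.divisors_mul]; exact Finset.card_mul_le

/-- the divisor function as a real number -/
def tau (n : ℕ) : ℝ := (n.divisors.card : ℝ)

lemma tau_nonneg (n : ℕ) : 0 ≤ tau n := Nat.cast_nonneg _

lemma tau_le (n : ℕ) : tau n ≤ 2 * Real.sqrt n := by
  have h1 : tau n ≤ ((2 * Nat.sqrt n : ℕ) : ℝ) := Nat.cast_le.mpr (card_divisors_le_two_sqrt n)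
  refine h1.trans ?_
  push_cast
  have h2 := Real.nat_sqrt_le_real_sqrt (a := n)
  linarith

/-- Sum over a product set versus fibres of multiplication. -/
lemma sum_mul_fiber_le (A B F : Finset ℕ) (f g h : ℕ → ℝ) (hA : ∀ a ∈ A, 1 ≤ a)
    (hB : ∀ b ∈ B, 1 ≤ b)
    (hF : ∀ a ∈ A, ∀ b ∈ B, a * b ∈ F) (hh : ∀ n ∈ F, 0 ≤ h n)
    (hfg : ∀ a ∈ A, ∀ b ∈ B, f a * g b = h (a * b)) :
    (∑ a ∈ A, f a) * (∑ b ∈ B, g b) ≤ ∑ n ∈ F, tau n * h n := by
  rw [Finset.sum_mul_sum, ← Finset.sum_product',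
    ← Finset.sum_fiberwise_of_maps_to (t := F) (g := fun x : ℕ × ℕ => x.1 * x.2)
      (fun x hx => hF _ (mem_product.mp hx).1 _ (mem_product.mp hx).2)]
  refine Finset.sum_le_sum fun n hn => ?_
  have h1 : ∀ x ∈ (A ×ˢ B).filter (fun x => x.1 * x.2 = n), f x.1 * g x.2 = h n := by
    intro x hx
    rw [mem_filter, mem_product] at hx
    rw [hfg _ hx.1.1 _ hx.1.2, hx.2]
  rw [Finset.sum_congr rfl h1, Finset.sum_const, nsmul_eq_mul]
  refine mul_le_mul_of_nonneg_right ?_ (hh n hn)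
  unfold tau
  rw [Nat.cast_le]
  refine Finset.card_le_card_of_injOn (fun x => x.1) ?_ ?_
  · intro x hx
    simp only [coe_filter, mem_product, Set.mem_ofPred_eq] at hx
    simp only [mem_coe, Nat.mem_divisors]
    refine ⟨⟨x.2, hx.2.symm⟩, ?_⟩
    have h2 := hA _ hx.1.1
    have h3 := hB _ hx.1.2
    rw [← hx.2]
    exact Nat.mul_ne_zero (by omega) (by omega)
  · rintro ⟨a, b⟩ hx ⟨a', b'⟩ hx' hxx
    simp only [coe_filter, mem_product, Set.mem_ofPred_eq] at hx hx' hxx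
    subst hxx
    have h2 := hA _ hx.1.1
    have h3 : b = b' := Nat.eq_of_mul_eq_mul_left (by omega) (hx.2.trans hx'.2.symm)
    rw [h3]

/-- The reverse inequality: a sum of `τ(n) h(n)` over `n ≤ Z` is at most a product. -/
lemma sum_tau_mul_le (Z : ℕ) (f : ℕ → ℝ) (hf : ∀ n, 0 ≤ f n)
    (hm : ∀ a b : ℕ, f (a * b) = f a * f b) :
    ∑ n ∈ Icc 1 Z, tau n * f n ≤ (∑ a ∈ Icc 1 Z, f a) ^ 2 := by
  rw [sq, Finset.sum_mul_sum, ← Finset.sum_product']
  have h1 : ∀ n ∈ Icc 1 Z, tau n * f n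
      = ∑ x ∈ ((Icc 1 Z) ×ˢ (Icc 1 Z)).filter (fun x => x.1 * x.2 = n), f x.1 * f x.2 := by
    intro n hn
    rw [mem_Icc] at hn
    have h2 : ∀ x ∈ ((Icc 1 Z) ×ˢ (Icc 1 Z)).filter (fun x => x.1 * x.2 = n),
        f x.1 * f x.2 = f n := by
      intro x hx
      rw [← hm, (mem_filter.mp hx).2]
    rw [Finset.sum_congr rfl h2, Finset.sum_const, nsmul_eq_mul]
    congr 1
    unfold tau
    rw [Nat.cast_inj]
    refine Finset.card_nbij' (fun d => (d, n / d)) (fun x => x.1) ?_ ?_ ?_ ?_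
    · intro d hd
      simp only [mem_coe, Nat.mem_divisors] at hd
      simp only [coe_filter, mem_product, mem_Icc, Set.mem_ofPred_eq]
      have hd0 : 0 < d := Nat.pos_of_dvd_of_pos hd.1 hn.1
      have h3 : d ≤ n := Nat.le_of_dvd hn.1 hd.1
      have h4 : n / d ≤ n := Nat.div_le_self n d
      have h5 : 0 < n / d := Nat.div_pos h3 hd0
      exact ⟨⟨⟨hd0, h3.trans hn.2⟩, h5, h4.trans hn.2⟩, Nat.mul_div_cancel' hd.1⟩
    · intro x hx
      simp only [coe_filter, mem_product, mem_Icc, Set.mem_ofPred_eq] at hx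
      simp only [mem_coe, Nat.mem_divisors]
      exact ⟨⟨x.2, hx.2.symm⟩, by omega⟩
    · intro d _; rfl
    · rintro ⟨a, b⟩ hx
      simp only [coe_filter, mem_product, mem_Icc, Set.mem_ofPred_eq] at hx
      simp only [Prod.mk.injEq, true_and]
      rw [← hx.2]
      exact Nat.mul_div_cancel_left b (by omega)
  rw [Finset.sum_congr rfl h1, Finset.sum_fiberwise_eq_sum_filter]
  refine Finset.sum_le_sum_of_subset_of_nonneg (Finset.filter_subset _ _) ?_
  intro x _ _
  exact mul_nonneg (hf _) (hf _)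

/-- The constant `∑ a ^ (-3/2)`. -/
def zc : ℝ := ∑' a : ℕ, 1 / (a : ℝ) ^ ((3 : ℝ) / 2)

lemma sum_le_zc (Z : ℕ) : ∑ a ∈ Icc 1 Z, 1 / (a : ℝ) ^ ((3 : ℝ) / 2) ≤ zc := by
  unfold zc
  apply Summable.sum_le_tsum
  · intro i _; positivity
  · exact Real.summable_one_div_nat_rpow.mpr (by norm_num)

lemma zc_pos : 0 < zc := by
  have := sum_le_zc 1
  simp at this
  linarith

lemma sum_tau_sq_le (Z : ℕ) : ∑ m ∈ Icc 1 Z, tau m ^ 2 / (m : ℝ) ^ 2 ≤ 2 * zc ^ 2 := by
  have h1 : ∀ m ∈ Icc 1 Z, tau m ^ 2 / (m : ℝ) ^ 2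
      ≤ 2 * (tau m * (1 / (m : ℝ) ^ ((3 : ℝ) / 2))) := by
    intro m hm
    have hm0 : (0 : ℝ) < m := by exact_mod_cast (mem_Icc.mp hm).1
    have h2 : tau m ^ 2 ≤ tau m * (2 * Real.sqrt m) := by
      rw [sq]; exact mul_le_mul_of_nonneg_left (tau_le m) (tau_nonneg m)
    have h3 : (m : ℝ) ^ 2 = (m : ℝ) ^ ((3 : ℝ) / 2) * Real.sqrt m := by
      rw [Real.sqrt_eq_rpow, ← Real.rpow_add hm0, ← Real.rpow_natCast]
      norm_num
    have h4 : 0 < Real.sqrt m := Real.sqrt_pos.mpr hm0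
    have h5 : 0 < (m : ℝ) ^ ((3 : ℝ) / 2) := Real.rpow_pos_of_pos hm0 _
    rw [div_le_iff₀ (by positivity), h3]
    calc tau m ^ 2 ≤ tau m * (2 * Real.sqrt m) := h2
      _ = 2 * (tau m * (1 / (m : ℝ) ^ ((3 : ℝ) / 2))) *
          ((m : ℝ) ^ ((3 : ℝ) / 2) * Real.sqrt m) := by field_simp
  refine (Finset.sum_le_sum h1).trans ?_
  rw [← Finset.mul_sum]
  have h6 := sum_tau_mul_le Z (fun n => 1 / (n : ℝ) ^ ((3 : ℝ) / 2)) (fun n => by positivity)
    (fun a b => by
      push_cast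
      rw [Real.mul_rpow (Nat.cast_nonneg a) (Nat.cast_nonneg b)]
      rw [one_div_mul_one_div])
  have h7 := sum_le_zc Z
  have h8 : 0 ≤ ∑ a ∈ Icc 1 Z, 1 / (a : ℝ) ^ ((3 : ℝ) / 2) :=
    Finset.sum_nonneg fun i _ => by positivity
  nlinarith [h6, h7, h8]

/-- Harmonic sum over odd numbers. -/
lemma log_le_sum_odd (T : ℕ) :
    Real.log (T + 1) / 2 ≤ ∑ a ∈ (Icc 1 T).filter (fun a => ¬ 2 ∣ a), 1 / (a : ℝ) := by
  have h1 : Real.log (T + 1) ≤ ∑ a ∈ Icc 1 T, 1 / (a : ℝ) := by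
    have := log_add_one_le_harmonic T
    push_cast at this
    refine this.trans (le_of_eq ?_)
    rw [harmonic_eq_sum_Icc]
    push_cast
    simp
  have h2 : ∑ a ∈ Icc 1 T, 1 / (a : ℝ) = ∑ a ∈ (Icc 1 T).filter (fun a => 2 ∣ a), 1 / (a : ℝ)
      + ∑ a ∈ (Icc 1 T).filter (fun a => ¬ 2 ∣ a), 1 / (a : ℝ) :=
    (Finset.sum_filter_add_sum_filter_not _ _ _).symm
  have h3 : ∑ a ∈ (Icc 1 T).filter (fun a => 2 ∣ a), 1 / (a : ℝ)
      ≤ ∑ a ∈ (Icc 1 T).filter (fun a => ¬ 2 ∣ a), 1 / (a : ℝ) := by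
    calc ∑ a ∈ (Icc 1 T).filter (fun a => 2 ∣ a), 1 / (a : ℝ)
        ≤ ∑ a ∈ (Icc 1 T).filter (fun a => 2 ∣ a), 1 / ((a - 1 : ℕ) : ℝ) := by
          refine Finset.sum_le_sum fun a ha => ?_
          rw [mem_filter, mem_Icc] at ha
          have h4 : 2 ≤ a := Nat.le_of_dvd (by omega) ha.2
          apply one_div_le_one_div_of_le
          · have : 1 ≤ a - 1 := by omega
            exact_mod_cast this
          · exact_mod_cast Nat.sub_le a 1
      _ = ∑ b ∈ ((Icc 1 T).filter (fun a => 2 ∣ a)).image (fun a : ℕ => (a - 1 : ℕ)), 1 / (b : ℝ) := by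
          rw [Finset.sum_image]
          intro a ha b hb h
          simp only [coe_filter, mem_Icc, Set.mem_ofPred_eq] at ha hb h
          omega
      _ ≤ _ := by
          apply Finset.sum_le_sum_of_subset_of_nonneg
          · intro b hb
            simp only [mem_image, mem_filter, mem_Icc] at hb ⊢
            obtain ⟨a, ⟨⟨h4, h5⟩, h6⟩, rfl⟩ := hb
            omega
          · intro i _ _; positivity
  linarith

/-- The lower bound for the bounding sum. -/
lemma sum_odd_squarefree_ge (T : ℕ) :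
    (Real.log (T + 1)) ^ 2 / (8 * zc ^ 2) ≤
      ∑ l ∈ (Icc 1 (T ^ 2)).filter (fun l => ¬ 2 ∣ l ∧ Squarefree l), tau l * (1 / (l : ℝ)) := by
  have h1 := log_le_sum_odd T
  have hlog : 0 ≤ Real.log (T + 1) := Real.log_nonneg (by
    have : (0 : ℝ) ≤ T := Nat.cast_nonneg T
    linarith)
  -- step 1
  have h2 : (∑ a ∈ (Icc 1 T).filter (fun a => ¬ 2 ∣ a), 1 / (a : ℝ)) *
      (∑ a ∈ (Icc 1 T).filter (fun a => ¬ 2 ∣ a), 1 / (a : ℝ))
      ≤ ∑ n ∈ (Icc 1 (T ^ 2)).filter (fun a => ¬ 2 ∣ a), tau n * (1 / (n : ℝ)) := by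
    apply sum_mul_fiber_le
    · intro a ha; exact (mem_Icc.mp (mem_filter.mp ha).1).1
    · intro a ha; exact (mem_Icc.mp (mem_filter.mp ha).1).1
    · intro a ha b hb
      rw [mem_filter, mem_Icc] at ha hb ⊢
      refine ⟨⟨Nat.mul_pos ha.1.1 hb.1.1, ?_⟩, ?_⟩
      · rw [sq]; exact Nat.mul_le_mul ha.1.2 hb.1.2
      · rw [Nat.Prime.dvd_mul Nat.prime_two]; exact not_or.mpr ⟨ha.2, hb.2⟩
    · intro n _; positivity
    · intro a _ b _; push_cast; rw [one_div_mul_one_div]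
  -- step 2
  have h3 : ∑ n ∈ (Icc 1 (T ^ 2)).filter (fun a => ¬ 2 ∣ a), tau n * (1 / (n : ℝ))
      ≤ (∑ l ∈ (Icc 1 (T ^ 2)).filter (fun l => ¬ 2 ∣ l ∧ Squarefree l), tau l * (1 / (l : ℝ)))
        * ∑ m ∈ Icc 1 (T ^ 2), tau m ^ 2 / (m : ℝ) ^ 2 := by
    rw [Finset.sum_mul_sum, ← Finset.sum_product']
    set S := ((Icc 1 (T ^ 2)).filter (fun l => ¬ 2 ∣ l ∧ Squarefree l)) ×ˢ Icc 1 (T ^ 2) with hS
    set F := (Icc 1 (T ^ 2)).filter (fun a => ¬ 2 ∣ a) with hF
    have h4 : ∀ n ∈ F, ∃ x ∈ S, x.2 ^ 2 * x.1 = n := by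
      intro n hn
      rw [hF, mem_filter, mem_Icc] at hn
      obtain ⟨a, b, hab, ha⟩ := Nat.sq_mul_squarefree n
      have ha0 : a ≠ 0 := ha.ne_zero
      have hb0 : b ≠ 0 := by
        rintro rfl
        simp at hab
        omega
      have hb2 : 1 ≤ b ^ 2 := Nat.pos_of_ne_zero (pow_ne_zero 2 hb0)
      have hle1 : a ≤ n := by
        rw [← hab]; exact Nat.le_mul_of_pos_left a hb2
      have hle2 : b ≤ n := by
        rw [← hab]
        calc b ≤ b ^ 2 := Nat.le_self_pow (by norm_num) b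
          _ ≤ b ^ 2 * a := Nat.le_mul_of_pos_right _ (Nat.pos_of_ne_zero ha0)
      refine ⟨(a, b), ?_, hab⟩
      rw [hS, mem_product, mem_filter, mem_Icc, mem_Icc]
      refine ⟨⟨⟨Nat.pos_of_ne_zero ha0, hle1.trans hn.1.2⟩, ?_, ha⟩,
        Nat.pos_of_ne_zero hb0, hle2.trans hn.1.2⟩
      intro h2
      exact hn.2 (h2.trans ⟨b ^ 2, by rw [← hab]; ring⟩)
    choose! g hg1 hg2 using h4
    have h5 : ∀ n ∈ F, tau n * (1 / (n : ℝ))
        ≤ (fun x : ℕ × ℕ => tau x.1 * (1 / (x.1 : ℝ)) * (tau x.2 ^ 2 / (x.2 : ℝ) ^ 2)) (g n) := by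
      intro n hn
      have h6 := hg2 n hn
      have h7 : tau n ≤ tau (g n).1 * tau (g n).2 ^ 2 := by
        have h8 : n.divisors.card ≤ (g n).1.divisors.card * ((g n).2.divisors.card) ^ 2 := by
          conv_lhs => rw [← h6]
          calc ((g n).2 ^ 2 * (g n).1).divisors.card
              ≤ ((g n).2 ^ 2).divisors.card * (g n).1.divisors.card := card_divisors_mul_le _ _
            _ ≤ ((g n).2.divisors.card * (g n).2.divisors.card) * (g n).1.divisors.card := by
                gcongr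
                rw [sq]; exact card_divisors_mul_le _ _
            _ = _ := by ring
        unfold tau
        exact_mod_cast h8
      have h9 : (n : ℝ) = ((g n).2 : ℝ) ^ 2 * (g n).1 := by
        conv_lhs => rw [← h6]
        push_cast; ring
      have hx := hg1 n hn
      rw [hS, mem_product, mem_filter, mem_Icc, mem_Icc] at hx
      have p1 : (0 : ℝ) < (g n).1 := by exact_mod_cast hx.1.1.1
      have p2 : (0 : ℝ) < (g n).2 := by exact_mod_cast hx.2.1
      simp only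
      rw [h9]
      calc tau n * (1 / (((g n).2 : ℝ) ^ 2 * (g n).1))
          ≤ (tau (g n).1 * tau (g n).2 ^ 2) * (1 / (((g n).2 : ℝ) ^ 2 * (g n).1)) := by
            gcongr
        _ = _ := by field_simp
    refine (Finset.sum_le_sum h5).trans ?_
    have hinj : Set.InjOn g F := by
      intro a ha b hb hab
      rw [← hg2 a ha, ← hg2 b hb, hab]
    rw [← Finset.sum_image (f := fun x : ℕ × ℕ =>
      tau x.1 * (1 / (x.1 : ℝ)) * (tau x.2 ^ 2 / (x.2 : ℝ) ^ 2)) hinj]
    apply Finset.sum_le_sum_of_subset_of_nonneg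
    · intro x hx
      obtain ⟨n, hn, rfl⟩ := mem_image.mp hx
      exact hg1 n hn
    · intro x _ _
      have := tau_nonneg x.1
      positivity
  have h10 := sum_tau_sq_le (T ^ 2)
  have h11 : 0 ≤ ∑ l ∈ (Icc 1 (T ^ 2)).filter (fun l => ¬ 2 ∣ l ∧ Squarefree l),
      tau l * (1 / (l : ℝ)) := Finset.sum_nonneg fun i _ => by
        have := tau_nonneg i
        positivity
  have hz := zc_pos
  rw [div_le_iff₀ (by positivity)]
  have h12 : (Real.log (T + 1) / 2) ^ 2 ≤ (∑ a ∈ (Icc 1 T).filter (fun a => ¬ 2 ∣ a), 1 / (a : ℝ)) *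
      (∑ a ∈ (Icc 1 T).filter (fun a => ¬ 2 ∣ a), 1 / (a : ℝ)) := by
    rw [sq]; exact mul_le_mul h1 h1 (by positivity) (le_trans (by positivity) h1)
  have h13 := mul_le_mul_of_nonneg_left h10 h11
  nlinarith [h12, h2, h3, h13]

lemma omega_eq_card (d : ℕ) : ω d = d.primeFactors.card := by
  rw [cardDistinctFactors_apply, ← Nat.toFinset_factors, List.card_toFinset]

lemma tau_squarefree {d : ℕ} (hd : Squarefree d) : tau d = 2 ^ d.primeFactors.card := by
  unfold tau
  rw [Nat.card_divisors hd.ne_zero, Finset.prod_congr rfl (g := fun _ => 2)]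
  · rw [Finset.prod_const]; push_cast; rfl
  · intro p hp
    rw [Nat.factorization_eq_one_of_squarefree hd (Nat.prime_of_mem_primeFactors hp)
      (Nat.dvd_of_mem_primeFactors hp)]

/-- The set of odd primes up to `Z`. -/
def oddPrimes (Z : ℕ) : Finset ℕ := (Icc 1 Z).filter (fun p => p.Prime ∧ p ≠ 2)

lemma mem_oddPrimes {Z p : ℕ} : p ∈ oddPrimes Z ↔ p ≤ Z ∧ p.Prime ∧ p ≠ 2 := by
  unfold oddPrimes
  rw [mem_filter, mem_Icc]
  constructor
  · rintro ⟨⟨_, h1⟩, h2⟩; exact ⟨h1, h2⟩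
  · rintro ⟨h1, h2⟩; exact ⟨⟨h2.1.pos, h1⟩, h2⟩

/-- The product of the odd primes up to `Z`. -/
def oddPrimorial (Z : ℕ) : ℕ := ∏ p ∈ oddPrimes Z, p

lemma primeFactors_oddPrimorial (Z : ℕ) : (oddPrimorial Z).primeFactors = oddPrimes Z :=
  Nat.primeFactors_prod (fun _ hp => (mem_oddPrimes.mp hp).2.1)

lemma squarefree_oddPrimorial (Z : ℕ) : Squarefree (oddPrimorial Z) := by
  unfold oddPrimorial
  refine Finset.squarefree_prod_of_pairwise_isCoprime ?_ ?_
  · intro p hp q hq hpq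
    rw [Function.onFun, ← Nat.coprime_iff_isRelPrime]
    exact (Nat.coprime_primes (mem_oddPrimes.mp hp).2.1 (mem_oddPrimes.mp hq).2.1).mpr hpq
  · intro p hp
    exact (mem_oddPrimes.mp hp).2.1.prime.squarefree

open Classical in
/-- **Two-dimensional sieve bound.** -/
theorem two_dim_sieve (Ω : ℕ → Finset ℕ)
    (hΩ : ∀ p : ℕ, p.Prime → p ≠ 2 → Ω p ⊆ range p ∧ (Ω p).card = 2) (M N T : ℕ) (hT : 1 ≤ T) :
    (((Ico M (M + N)).filter (fun n => ∀ p : ℕ, p.Prime → p ≠ 2 → p ≤ T ^ 2 →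
      n % p ∉ Ω p)).card : ℝ) ≤
      8 * zc ^ 2 * N / (Real.log (T + 1)) ^ 2 + 8 * (T : ℝ) ^ 10 := by
  set P := oddPrimorial (T ^ 2) with hPdef
  have hP : Squarefree P := squarefree_oddPrimorial _
  have hPf : P.primeFactors = oddPrimes (T ^ 2) := primeFactors_oddPrimorial _
  have hT1 : (1 : ℝ) ≤ T := by exact_mod_cast hT
  have hy : (1 : ℝ) ≤ ((T : ℝ) ^ 2) ^ 2 := by
    rw [← pow_mul]; exact one_le_pow₀ hT1
  have h3 : ∀ p ∈ P.primeFactors, 3 ≤ p := by
    intro p hp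
    rw [hPf, mem_oddPrimes] at hp
    have := hp.2.1.two_le
    omega
  have h := selberg_residue P hP Ω
    (fun p hp => by
      rw [hPf, mem_oddPrimes] at hp; exact (hΩ p hp.2.1 hp.2.2).1)
    (fun p hp => by
      rw [hPf, mem_oddPrimes] at hp; rw [(hΩ p hp.2.1 hp.2.2).2]; norm_num)
    (fun p hp => by
      have := h3 p hp
      rw [hPf, mem_oddPrimes] at hp; rw [(hΩ p hp.2.1 hp.2.2).2]; omega)
    M N (((T : ℝ) ^ 2) ^ 2) hy
  have hset : ((Ico M (M + N)).filter (fun n => ∀ p : ℕ, p.Prime → p ≠ 2 → p ≤ T ^ 2 →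
      n % p ∉ Ω p)) = ((Ico M (M + N)).filter (fun n => ∀ p ∈ P.primeFactors, n % p ∉ Ω p)) := by
    ext n
    simp only [mem_filter, and_congr_right_iff]
    intro _
    constructor
    · intro h p hp
      rw [hPf, mem_oddPrimes] at hp
      exact h p hp.2.1 hp.2.2 hp.1
    · intro h p hp hp2 hpT
      apply h p
      rw [hPf, mem_oddPrimes]
      exact ⟨hpT, hp, hp2⟩
  rw [hset]
  refine le_trans (le_trans (le_of_eq ?_) h) ?_
  · congr 2
  have hlog : 0 < Real.log (T + 1) := Real.log_pos (by linarith)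
  have hz := zc_pos
  have hcard2 : ∀ d ∈ P.divisors, ∏ p ∈ d.primeFactors, ((Ω p).card : ℝ)
      = 2 ^ d.primeFactors.card := by
    intro d hd
    rw [← Finset.prod_const]
    refine Finset.prod_congr rfl fun p hp => ?_
    have hp' : p ∈ P.primeFactors :=
      Nat.primeFactors_mono (Nat.mem_divisors.mp hd).1 hP.ne_zero hp
    rw [hPf, mem_oddPrimes] at hp'
    rw [(hΩ p hp'.2.1 hp'.2.2).2]; norm_num
  apply _root_.add_le_add
  · -- main term
    have hG : (Real.log (T + 1)) ^ 2 / (8 * zc ^ 2) ≤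
        ∑ l ∈ P.divisors, if (l : ℝ) ^ 2 ≤ ((T : ℝ) ^ 2) ^ 2 then
        ∏ p ∈ l.primeFactors, ((Ω p).card : ℝ) / (p - (Ω p).card) else 0 := by
      refine (sum_odd_squarefree_ge T).trans ?_
      rw [← Finset.sum_filter]
      refine le_trans ?_ (Finset.sum_le_sum_of_subset_of_nonneg
        (s := (Icc 1 (T ^ 2)).filter (fun l => ¬ 2 ∣ l ∧ Squarefree l)) ?_ ?_)
      · refine Finset.sum_le_sum fun l hl => ?_
        rw [mem_filter, mem_Icc] at hl
        obtain ⟨⟨hl1, hl2⟩, hl3, hl4⟩ := hl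
        rw [tau_squarefree hl4, ← Finset.prod_const]
        have hl0 : (1 / (l : ℝ)) = ∏ p ∈ l.primeFactors, (1 / (p : ℝ)) := by
          rw [Finset.prod_div_distrib, Finset.prod_const_one, ← Nat.cast_prod,
            Nat.prod_primeFactors_of_squarefree hl4]
        rw [hl0, ← Finset.prod_mul_distrib]
        refine Finset.prod_le_prod (fun p _ => by positivity) fun p hp => ?_
        have hpp := Nat.prime_of_mem_primeFactors hp
        have hp2 : p ≠ 2 := by
          rintro rfl; exact hl3 (Nat.dvd_of_mem_primeFactors hp)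
        rw [(hΩ p hpp hp2).2]
        have hp3 : (3 : ℝ) ≤ p := by
          have := hpp.two_le
          have : 3 ≤ p := by omega
          exact_mod_cast this
        rw [mul_one_div]
        push_cast
        apply div_le_div_of_nonneg_left (by norm_num) (by linarith) (by linarith)
      · intro l hl
        rw [mem_filter, mem_Icc] at hl
        obtain ⟨⟨hl1, hl2⟩, hl3, hl4⟩ := hl
        rw [mem_filter, Nat.mem_divisors]
        refine ⟨⟨?_, hP.ne_zero⟩, ?_⟩
        · rw [← Nat.prod_primeFactors_of_squarefree hl4, hPdef]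
          apply Finset.prod_dvd_prod_of_subset
          intro p hp
          rw [mem_oddPrimes]
          refine ⟨(Nat.le_of_mem_primeFactors hp).trans hl2, Nat.prime_of_mem_primeFactors hp, ?_⟩
          rintro rfl; exact hl3 (Nat.dvd_of_mem_primeFactors hp)
        · have : (l : ℝ) ≤ (T : ℝ) ^ 2 := by exact_mod_cast hl2
          gcongr
      · intro l hl _
        rw [mem_filter] at hl
        refine Finset.prod_nonneg fun p hp => ?_
        have hp' : p ∈ P.primeFactors :=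
          Nat.primeFactors_mono (Nat.mem_divisors.mp hl.1).1 hP.ne_zero hp
        have h4 := h3 p hp'
        rw [hPf, mem_oddPrimes] at hp'
        rw [(hΩ p hp'.2.1 hp'.2.2).2]
        have : (3 : ℝ) ≤ p := by exact_mod_cast h4
        push_cast
        apply div_nonneg (by norm_num) (by linarith)
    have hpos : 0 < (Real.log (T + 1)) ^ 2 / (8 * zc ^ 2) := by positivity
    calc (N : ℝ) / _ ≤ N / ((Real.log (T + 1)) ^ 2 / (8 * zc ^ 2)) :=
          div_le_div_of_nonneg_left (Nat.cast_nonneg N) hpos hG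
      _ = 8 * zc ^ 2 * N / (Real.log (T + 1)) ^ 2 := by field_simp
  · -- error term
    have h5 : ∀ d ∈ P.divisors, (if (d : ℝ) ≤ ((T : ℝ) ^ 2) ^ 2 then
          (3 : ℝ) ^ ω d * ∏ p ∈ d.primeFactors, ((Ω p).card : ℝ) else 0)
        ≤ if d ∈ Icc 1 (T ^ 4) then 8 * (T : ℝ) ^ 6 else 0 := by
      intro d hd
      have hd0 : 1 ≤ d := Nat.pos_of_mem_divisors hd
      have hdsq := hP.squarefree_of_dvd (Nat.mem_divisors.mp hd).1
      by_cases hdT : (d : ℝ) ≤ ((T : ℝ) ^ 2) ^ 2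
      · rw [if_pos hdT, if_pos, hcard2 d hd, omega_eq_card]
        · calc (3 : ℝ) ^ d.primeFactors.card * 2 ^ d.primeFactors.card
              ≤ 4 ^ d.primeFactors.card * 2 ^ d.primeFactors.card := by gcongr; norm_num
            _ = (2 ^ d.primeFactors.card) ^ 3 := by
                rw [← mul_pow, ← pow_mul, mul_comm _ 3, pow_mul]; norm_num
            _ = tau d ^ 3 := by rw [tau_squarefree hdsq]
            _ ≤ (2 * Real.sqrt d) ^ 3 := by
                gcongr
                · exact tau_nonneg d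
                · exact tau_le d
            _ ≤ (2 * (T : ℝ) ^ 2) ^ 3 := by
                gcongr
                rw [Real.sqrt_le_left (by positivity)]
                exact hdT
            _ = 8 * (T : ℝ) ^ 6 := by ring
        · rw [mem_Icc]
          refine ⟨hd0, ?_⟩
          rw [← pow_mul] at hdT
          exact_mod_cast hdT
      · rw [if_neg hdT]
        split_ifs
        · positivity
        · exact le_rfl
    refine (Finset.sum_le_sum h5).trans ?_
    rw [← Finset.sum_filter]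
    calc ∑ d ∈ P.divisors.filter (fun d => d ∈ Icc 1 (T ^ 4)), 8 * (T : ℝ) ^ 6
        ≤ ∑ d ∈ Icc 1 (T ^ 4), 8 * (T : ℝ) ^ 6 := by
          apply Finset.sum_le_sum_of_subset_of_nonneg
          · intro d hd; exact (mem_filter.mp hd).2
          · intro _ _ _; positivity
      _ = 8 * (T : ℝ) ^ 10 := by
          rw [Finset.sum_const, nsmul_eq_mul, Nat.card_Icc]
          have : T ^ 4 + 1 - 1 = T ^ 4 := by omega
          rw [this]; push_cast; ring

end

end Pool.Agent.Lib.Sieve
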